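import Pool.Agent.helper91.ADV.SpecL

set_option autoImplicit false

namespace Pool.Agent.ADV

open Finset Pool.Agent.helper55.NT Pool.Agent.LNB Pool.Agent.NG Pool.Agent.PB Pool.Agent.PC

/-- the bound `K` on the number of patterns is at least one -/
theorem LBT_K {n s : ℕ} (C : MCircuit n s) (u K : ℕ) (h : C.LocPat u K) : 1 ≤ K := by
  have h1 := h (fun _ => fun _ => false) (fun _ _ _ => le_rfl) (fun i j => by
    intro k _
    rfl)
  have h2 : (0 : ℕ∞) < (Set.range fun i : ℕ => C.notVals ((fun _ => fun _ => false : ℕ → (Fin n → Bool)) i)).encard := by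
    rw [Set.encard_pos]
    exact Set.range_nonempty _
  have h3 : (0 : ℕ∞) < (K : ℕ∞) := lt_of_lt_of_le h2 h1
  exact_mod_cast h3

theorem LBT_num (c t d m L K s e : ℕ) (hK : 1 ≤ K) (hL : 1 ≤ L) (hm : 0 < m) (hmL : m ≤ c * t ^ 20 * d * L)
    (he : t + 2 ≤ 2 ^ e) :
    ((K : ℝ) - 1) / (2 * L) ≤ c * t ^ 20 * d * ((K : ℝ) - 1) / m ∧
    (K : ℝ) / (2 * L) ≤ c * t ^ 20 * d * (K : ℝ) / m ∧
    ((s : ℝ) + 3) / 2 ^ (2 ^ e) ≤ ((s : ℝ) + 1) / 2 ^ t := by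
  have hL' : (0 : ℝ) < L := by exact_mod_cast hL
  have hm' : (0 : ℝ) < m := by exact_mod_cast hm
  have hK' : (1 : ℝ) ≤ K := by exact_mod_cast hK
  have hmL' : (m : ℝ) ≤ c * t ^ 20 * d * L := by exact_mod_cast hmL
  have key : ∀ a : ℝ, 0 ≤ a → a / (2 * L) ≤ c * t ^ 20 * d * a / m := by
    intro a ha
    rw [div_le_div_iff₀ (by positivity) hm']
    have h1 : a * m ≤ a * (c * t ^ 20 * d * L) := mul_le_mul_of_nonneg_left hmL' ha
    have h2 : 0 ≤ a * (c * t ^ 20 * d * L) := by positivity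
    nlinarith [h1, h2]
  refine ⟨key _ (by linarith), key _ (by linarith), ?_⟩
  have h1 : (2 : ℝ) ^ (t + 2) ≤ 2 ^ (2 ^ e) := pow_le_pow_right₀ (by norm_num) he
  have h2 : (0 : ℝ) < 2 ^ t := by positivity
  calc ((s : ℝ) + 3) / 2 ^ (2 ^ e) ≤ ((s : ℝ) + 3) / 2 ^ (t + 2) :=
        div_le_div_of_nonneg_left (by positivity) (by positivity) h1
    _ ≤ ((s : ℝ) + 1) / 2 ^ t := by
        rw [div_le_div_iff₀ (by positivity) h2, pow_add]
        have h3 : (0 : ℝ) ≤ s := Nat.cast_nonneg s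
        nlinarith

theorem LBT (h1 : BSD_stmt) (h2 : LPP_stmt) (h3 : BLK_stmt) (h4 : PRM_stmt) : LBT_stmt := by
  obtain ⟨Z⟩ := h1
  refine ⟨2 ^ 224, fun u => ⟨PL Z u, (h2 Z u).1, (h2 Z u).2, ?_⟩⟩
  intro n t d hlg hd hm
  obtain ⟨e, r, L, hOk, he, hr, hwd, hL, hmax, ht2, hML⟩ := h4 (min (u n) n) n t d (min_le_right _ _) hlg hd hm
  obtain ⟨D, hD, hall⟩ := h3 Z u n e r L d hOk he hr hwd hL hmax
  have ht1 : 1 ≤ t := (lg_pos' n).trans hlg
  have hmpos : 0 < min (u n) n := by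
    refine lt_of_lt_of_le ?_ hm
    positivity
  refine ⟨D, hD, ?_⟩
  intro s K C o hF hLP
  obtain ⟨ha, hb⟩ := hall s K C o hF hLP
  have hK := LBT_K C (u n) K hLP
  obtain ⟨n1, n2, n3⟩ := LBT_num (2 ^ 224) t d (min (u n) n) L K s e hK hL hmpos hML ht2
  constructor
  · linarith
  · linarith

end Pool.Agent.ADV
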